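import Pool.Agent.W510.CG.Stm

set_option autoImplicit false
set_option linter.unusedSectionVars false

namespace Pool.Agent.W806.CG.LOC

open Pool.Agent.W510.CG

variable {L : Type} [AddCommGroup L] [LinearOrder L] [IsOrderedAddMonoid L]

/-- vanishing above `0` -/
def VA (z : L →₀ ℤ) : Prop := ∀ μ : L, 0 < μ → z μ = 0

theorem VA.add {z z' : L →₀ ℤ} (h : VA z) (h' : VA z') : VA (z + z') := fun μ hμ => by
  rw [Finsupp.add_apply, h μ hμ, h' μ hμ, add_zero]

theorem VA.neg {z : L →₀ ℤ} (h : VA z) : VA (-z) := fun μ hμ => by
  rw [Finsupp.neg_apply, h μ hμ, neg_zero]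

theorem VA.zero : VA (0 : L →₀ ℤ) := fun _ _ => rfl

open Classical in
/-- shift of the inner branches at the base node -/
noncomputable def sh (s : ℤ → (L →₀ ℤ)) : Pt L → Pt L
  | none => none
  | some z => if VA z then some (z + s (z 0)) else some z

theorem sh_none (s : ℤ → (L →₀ ℤ)) : sh s (none : Pt L) = none := rfl

theorem sh_va (s : ℤ → (L →₀ ℤ)) {z : L →₀ ℤ} (h : VA z) :
    sh s (some z) = some (z + s (z 0)) := by
  simp only [sh]
  exact if_pos h

theorem sh_nva (s : ℤ → (L →₀ ℤ)) {z : L →₀ ℤ} (h : ¬ VA z) : sh s (some z) = some z := by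
  simp only [sh]
  exact if_neg h

theorem sh_sh (s s' : ℤ → (L →₀ ℤ)) (σ σ' : ℤ → ℤ) (hs : ∀ k, VA (s k))
    (h0 : ∀ k, (s k) 0 = σ k - k) (hinv : ∀ k, s' (σ k) = - s k) (z : Pt L) :
    sh s' (sh s z) = z := by
  cases z with
  | none => rfl
  | some z =>
    by_cases h : VA z
    · rw [sh_va s h, sh_va s' (h.add (hs _))]
      have e : (z + s (z 0)) 0 = σ (z 0) := by
        rw [Finsupp.add_apply, h0]
        ring
      rw [e, hinv]
      congr 1
      abel
    · rw [sh_nva s h, sh_nva s' h]

/-- the shift as a permutation -/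
noncomputable def shE (s s' : ℤ → (L →₀ ℤ)) (σ : Equiv.Perm ℤ) (hs : ∀ k, VA (s k))
    (h0 : ∀ k, (s k) 0 = σ k - k) (hs' : ∀ k, s' k = - s (σ.symm k)) : Equiv.Perm (Pt L) where
  toFun := sh s
  invFun := sh s'
  left_inv := by
    intro z
    refine sh_sh s s' σ σ.symm hs h0 (fun k => ?_) z
    rw [hs', Equiv.symm_apply_apply]
  right_inv := by
    intro z
    refine sh_sh s' s σ.symm σ ?_ ?_ ?_ z
    · intro k
      rw [hs']
      exact (hs _).neg
    · intro k
      rw [hs', Finsupp.neg_apply, h0, Equiv.apply_symm_apply]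
      ring
    · intro k
      rw [hs', neg_neg]

theorem w_sh (s : ℤ → (L →₀ ℤ)) (σ : Equiv.Perm ℤ) (hs : ∀ k, VA (s k))
    (h0 : ∀ k, (s k) 0 = σ k - k) (a b : Pt L) :
    w (sh s a) (sh s b) = w a b := by
  -- one vanishing, the other not
  have key : ∀ x y : L →₀ ℤ, VA x → ¬ VA y → v (x - y) = v (0 - y) := by
    intro x y hx hy
    have hy' : ∃ μ : L, 0 < μ ∧ y μ ≠ 0 := by
      by_contra h
      push Not at h
      exact hy h
    obtain ⟨μ, hμ, hyμ⟩ := hy'
    have hy0 : y ≠ 0 := by
      rintro rfl
      exact hyμ rfl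
    obtain ⟨h3, h4⟩ := v_spec hy0
    have hpos : 0 < v y := by
      rcases lt_or_ge (v y) μ with h | h
      · exact absurd (h4 μ h) hyμ
      · exact hμ.trans_le h
    have e1 : ∀ x : L →₀ ℤ, VA x → v (x - y) = v y := by
      intro x hx
      refine v_eq ?_ ?_
      · rw [Finsupp.sub_apply, hx _ hpos, zero_sub]
        exact neg_ne_zero.2 h3
      · intro l hl
        rw [Finsupp.sub_apply, hx _ (hpos.trans hl), h4 l hl, sub_zero]
    rw [e1 x hx, e1 0 VA.zero]
  cases a with
  | none => rw [sh_none, w_none_left, w_none_left]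
  | some x =>
    cases b with
    | none => rw [sh_none, w_none_right, w_none_right]
    | some y =>
      by_cases hx : VA x
      · by_cases hy : VA y
        · rw [sh_va s hx, sh_va s hy, w_some, w_some]
          by_cases h : x 0 = y 0
          · rw [h]
            congr 1
            abel
          · rw [v_eq (l := 0), v_eq (x := x - y) (l := 0)]
            · rw [Finsupp.sub_apply]
              exact sub_ne_zero.2 h
            · intro μ hμ
              rw [Finsupp.sub_apply, hx μ hμ, hy μ hμ, sub_zero]
            · rw [Finsupp.sub_apply, Finsupp.add_apply, Finsupp.add_apply, h0, h0]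
              have : σ (x 0) ≠ σ (y 0) := σ.injective.ne h
              intro h'
              apply this
              linarith
            · intro μ hμ
              rw [Finsupp.sub_apply, (hx.add (hs _)) μ hμ, (hy.add (hs _)) μ hμ, sub_zero]
        · rw [sh_va s hx, sh_nva s hy, w_some, w_some, key _ _ (hx.add (hs _)) hy, key x y hx hy]
      · by_cases hy : VA y
        · rw [sh_nva s hx, sh_va s hy, w_comm, w_comm (some x), w_some, w_some,
            key _ _ (hy.add (hs _)) hx, key y x hy hx]
        · rw [sh_nva s hx, sh_nva s hy]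

theorem Y_sh (s : ℤ → (L →₀ ℤ)) (σ : Equiv.Perm ℤ) (hs : ∀ k, VA (s k))
    (h0 : ∀ k, (s k) 0 = σ k - k) (a b c d : Pt L) :
    Y (sh s a) (sh s b) (sh s c) (sh s d) = Y a b c d := by
  unfold Y
  rw [w_sh s σ hs h0, w_sh s σ hs h0, w_sh s σ hs h0, w_sh s σ hs h0]

theorem br_va {z : L →₀ ℤ} (h : VA z) : br (γ0 L) (some z) = some (z 0) :=
  br_some_of (γ := γ0 L) (fun μ hμ => h μ hμ)

theorem br_nva {z : L →₀ ℤ} (h : ¬ VA z) : br (γ0 L) (some z) = none :=
  br_some_not (γ := γ0 L) (fun h' => h (fun μ hμ => h' μ hμ))

theorem swap_some (c c' k : ℤ) :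
    Equiv.swap (some c) (some c') (some k) = some (Equiv.swap c c' k) := by
  rcases eq_or_ne k c with rfl | h
  · rw [Equiv.swap_apply_left, Equiv.swap_apply_left]
  · rcases eq_or_ne k c' with rfl | h'
    · rw [Equiv.swap_apply_right, Equiv.swap_apply_right]
    · rw [Equiv.swap_apply_of_ne_of_ne h h', Equiv.swap_apply_of_ne_of_ne]
      · simpa using h
      · simpa using h'

theorem main : S_LOC := by
  intro L _ _ _ x y hx hy
  cases x with
  | none => exact absurd rfl hx
  | some x =>
    cases y with
    | none => exact absurd rfl hy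
    | some y =>
      have vx : VA x := by
        by_contra h
        exact hx (br_nva h)
      have vy : VA y := by
        by_contra h
        exact hy (br_nva h)
      rw [br_va vx, br_va vy]
      set t : L →₀ ℤ := y - x with ht
      have vt : VA t := fun μ hμ => by rw [ht, Finsupp.sub_apply, vx μ hμ, vy μ hμ, sub_zero]
      have t0 : t 0 = y 0 - x 0 := by rw [ht, Finsupp.sub_apply]
      let s : ℤ → (L →₀ ℤ) := fun k => if k = x 0 then t else if k = y 0 then -t else 0
      let σ : Equiv.Perm ℤ := Equiv.swap (x 0) (y 0)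
      have sc : s (x 0) = t := by simp only [s, if_true]
      have hs : ∀ k, VA (s k) := by
        intro k
        simp only [s]
        split_ifs
        · exact vt
        · exact vt.neg
        · exact VA.zero
      have h0 : ∀ k, (s k) 0 = σ k - k := by
        intro k
        simp only [s, σ]
        by_cases h : k = x 0
        · rw [if_pos h, h, Equiv.swap_apply_left, t0]
        · rw [if_neg h]
          by_cases h' : k = y 0
          · rw [if_pos h', h', Equiv.swap_apply_right, Finsupp.neg_apply, t0]
            ring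
          · rw [if_neg h', Equiv.swap_apply_of_ne_of_ne h h', sub_self]
            rfl
      refine ⟨shE s (fun k => - s (σ.symm k)) σ hs h0 (fun _ => rfl), ?_, ?_, ?_, ?_⟩
      · rw [mem_Iso]
        intro a b c d _
        exact Y_sh s σ hs h0 a b c d
      · show sh s (some x) = some y
        rw [sh_va s vx, sc, ht]
        congr 1
        abel
      · intro z hz1 hz2
        show sh s z = z
        cases z with
        | none => rfl
        | some z =>
          by_cases h : VA z
          · rw [br_va h] at hz1 hz2
            have k1 : z 0 ≠ x 0 := fun h' => hz1 (by rw [h'])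
            have k2 : z 0 ≠ y 0 := fun h' => hz2 (by rw [h'])
            rw [sh_va s h]
            simp only [s, if_neg k1, if_neg k2, add_zero]
          · exact sh_nva s h
      · intro z
        show br (γ0 L) (sh s z) = _
        cases z with
        | none =>
          rw [sh_none, br_none, Equiv.swap_apply_of_ne_of_ne] <;> simp
        | some z =>
          by_cases h : VA z
          · rw [sh_va s h, br_va (h.add (hs _)), br_va h, swap_some, Finsupp.add_apply, h0]
            congr 1
            simp only [σ]
            ring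
          · rw [sh_nva s h, br_nva h, Equiv.swap_apply_of_ne_of_ne] <;> simp

end Pool.Agent.W806.CG.LOC
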